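import Mathlib
import Pool.Agent.Q205.RP.GC

/-!
# Almost every perturbation of the `3x+k` maps

For `ω : ℤ → {0, 1}` let `U k ω x = T k (x + ω x)`, where `T k` is the `3x+k` map (`ω = 0` gives
`T k` itself). For almost every `ω` (independent fair coins) and every odd `k` at once, every orbit
is eventually periodic, reaches its cycle after `O(log |x|)` steps, and there are only finitely
many cycles.
-/

set_option autoImplicit false

open MeasureTheory Finset

namespace Pool.Agent.Results.MP_7f88e4_nt.AlmostEveryPerturbation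

/-- The `3x+k` map. -/
def T (k x : ℤ) : ℤ := if x % 2 = 0 then x / 2 else (3 * x + k) / 2

/-- The perturbed map: the argument `x` is replaced by `x + ω x`, with `ω x` equal to `0` or
`1`. -/
def U (k : ℤ) (ω : ℤ → Fin 2) (x : ℤ) : ℤ := T k (x + ((ω x : ℕ) : ℤ))

/-- The law of independent fair coins, one for each integer. -/
noncomputable def coins : Measure (ℤ → Fin 2) :=
  Measure.infinitePi (fun _ : ℤ => (PMF.uniformOfFintype (Fin 2)).toMeasure)

theorem result : ∀ᵐ ω ∂coins, ∀ k : ℤ, k % 2 = 1 →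
    {x | ∃ p : ℕ, 1 ≤ p ∧ (U k ω)^[p] x = x}.Finite ∧
    ∃ K : ℝ, ∀ x : ℤ, ∃ m p : ℕ, 1 ≤ p ∧ ((m + p : ℕ) : ℝ) ≤ K * Real.log (2 + |(x : ℝ)|) ∧
      (U k ω)^[m + p] x = (U k ω)^[m] x := by
  rw [ae_all_iff]
  intro k
  by_cases hk : k % 2 = 1
  swap
  · filter_upwards with ω h
    exact absurd h hk
  have hG := Q205.RP.lin_tab (a := 3) (b := k) (by norm_num) hk
  have h1 := Q205.RP.main_contracting _ (fun i => by
    fin_cases i <;> simp) hG (by
      rw [Fin.prod_univ_two]
      simp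
      norm_num)
  have h2 := Q205.RP.main_cycles (q := 3) (E := 1) _ (by norm_num) (by norm_num) (by norm_num)
    (fun i => by
      fin_cases i
      · exact ⟨0, by norm_num, by simp⟩
      · exact ⟨1, by norm_num, by simp⟩) (Q205.RP.RR_ge _ _) hG (by
      rw [Fin.prod_univ_two]
      simp
      norm_num)
  filter_upwards [h1, h2] with ω hω1 hω2 _
  have hU : Q205.RP.Tn (fun (x : ℤ) (c : Fin 2) => Q205.RP.tab 3 k (x + ((c : ℕ) : ℤ))) ω =
      U k ω := rfl
  rw [hU] at hω1 hω2
  obtain ⟨K, hK⟩ := hω1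
  have h3 : ∀ x : ℤ, ∃ m p : ℕ, 1 ≤ p ∧ ((m + p : ℕ) : ℝ) ≤ K * Real.log (2 + |(x : ℝ)|) ∧
      (U k ω)^[m + p] x = (U k ω)^[m] x := by
    intro x
    obtain ⟨i, j, hij, h4, h5⟩ := hK x
    refine ⟨i, j - i, by omega, ?_, ?_⟩
    · rw [show i + (j - i) = j by omega]
      exact h4
    · rw [show i + (j - i) = j by omega]
      exact h5.symm
  refine ⟨?_, K, h3⟩
  apply hω2.subset
  rintro x ⟨p, h4, h5⟩
  exact ⟨p, h4, h5⟩

end Pool.Agent.Results.MP_7f88e4_nt.AlmostEveryPerturbation
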