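import Pool.Agent.Q74.RC.Tot
import Pool.Agent.Q74.RC.Sharp

set_option autoImplicit false

/-!
The `3x+k` maps: the natural densities of the classes of merging trajectories dominate the sums of
reciprocals along the trajectories and the linear forms `p log 2 - o log 3` of the cycles, with constants
which do not depend on `k`.
-/

namespace Pool.Agent.Results.MP_7f88e4_nt.DensitiesAndReciprocals

open Finset Filter Topology

/-- the `3x+k` map on the integers -/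
def T (k x : ℤ) : ℤ := if x % 2 = 0 then x / 2 else (3 * x + k) / 2

/-- `Z` is a cycle of `T k` -/
def IsCycle (k : ℤ) (Z : Finset ℤ) : Prop :=
  ∃ (x : ℤ) (p : ℕ), 1 ≤ p ∧ (T k)^[p] x = x ∧ Z = (Finset.range p).image fun i => (T k)^[i] x

/-- number of odd elements -/
def odds (Z : Finset ℤ) : ℕ := (Z.filter fun x => x % 2 = 1).card

/-- the linear form `p log 2 - o log 3` of a set with `p` elements, `o` of them odd -/
noncomputable def form (Z : Finset ℤ) : ℝ := (Z.card : ℝ) * Real.log 2 - odds Z * Real.log 3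

/-- the integers whose trajectory enters `Z` -/
def Basin (k : ℤ) (Z : Finset ℤ) : Set ℤ := {n | ∃ j : ℕ, (T k)^[j] n ∈ Z}

/-- the integers whose trajectory meets the trajectory of `a` -/
def Class (k a : ℤ) : Set ℤ := {n | ∃ i j : ℕ, (T k)^[i] n = (T k)^[j] a}

/-- among the integers of sign `s` those in `S` have the natural density `δ` -/
def HasDensity (s : ℤ) (S : Set ℤ) (δ : ℝ) : Prop :=
  Tendsto (fun N : ℕ => ({n : ℤ | 0 < s * n ∧ s * n ≤ N ∧ n ∈ S}.ncard : ℝ) / N) atTop (𝓝 δ)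

/-- the binary entropy of `log 2 / log 3` in bits, `0.94995...` -/
noncomputable def H : ℝ := Real.binEntropy (Real.log 2 / Real.log 3) / Real.log 2

/-- There are `c, C > 0` and `e > 1 - H` such that for all `k` congruent to `1` or `5` mod `6`:
(1) for every integer `a` and both signs `s` the integers of sign `s` whose trajectories meet that of `a`
have a natural density `δ`, and `c` times the sum of `1 / max(|x|, |k|)` over any finite set of odd terms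
`x` of the trajectory of `a` with `3 x + k` of sign `s` is at most `δ`;
(2) for every finite set `A` of odd integers such that of any two elements of `A` with meeting trajectories
one is on the trajectory of the other, the sum of `1 / max(|x|, |k|)` over `A` is at most `C`, and at most
`C (|k| / y) ^ e` if no integer of `[-y, y]` has a trajectory meeting that of an element of `A`;
(3) for every cycle `Z ≠ {0}` the basin has natural densities `δ₁`, `δ₂` among the positive and the negative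
integers, `|p log 2 - o log 3| ≤ C |k| log(4|k|) (δ₁ + δ₂)`, and `δ₁ + δ₂ ≥ c / (|k| log(4|k|) p ^ 13)`;
(4) over any finite set of cycles other than `{0}` the sum of `|p log 2 - o log 3|` is at most `C |k|`; if
the basins contain no integer of `[-y, y]`, this sum is at most `C |k| (|k| / y) ^ e` and the sum of
`1 / max(|x|, |k|)` over the elements of the cycles is at most `C (|k| / y) ^ e`;
(5) for `k = 4 ^ n - 3 ^ n` some such sum in (4) is at least `k / (16 √n)`. -/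
theorem result : ∃ c C e : ℝ, 0 < c ∧ 0 < C ∧ 1 - H < e ∧
    (∀ k : ℤ, (k % 6 = 1 ∨ k % 6 = 5) →
      (∀ s : ℤ, (s = 1 ∨ s = -1) → ∀ a : ℤ, ∃ δ : ℝ, HasDensity s (Class k a) δ ∧
        ∀ A : Finset ℤ, (∀ x ∈ A, x % 2 = 1 ∧ 0 < s * (3 * x + k) ∧ ∃ j : ℕ, (T k)^[j] a = x) →
          c * ∑ x ∈ A, 1 / max |(x : ℝ)| |(k : ℝ)| ≤ δ) ∧
      (∀ A : Finset ℤ, (∀ x ∈ A, x % 2 = 1) →
        (∀ x ∈ A, ∀ y ∈ A, y ∈ Class k x → (∃ j : ℕ, (T k)^[j] x = y) ∨ ∃ j : ℕ, (T k)^[j] y = x) →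
          ∑ x ∈ A, 1 / max |(x : ℝ)| |(k : ℝ)| ≤ C ∧
          ∀ y : ℝ, 0 < y → (∀ x ∈ A, ∀ z ∈ Class k x, y < |(z : ℝ)|) →
            ∑ x ∈ A, 1 / max |(x : ℝ)| |(k : ℝ)| ≤ C * (|(k : ℝ)| / y) ^ e) ∧
      (∀ Z : Finset ℤ, IsCycle k Z → (0 : ℤ) ∉ Z → ∃ δ₁ δ₂ : ℝ,
        HasDensity 1 (Basin k Z) δ₁ ∧ HasDensity (-1) (Basin k Z) δ₂ ∧
        |form Z| ≤ C * |(k : ℝ)| * Real.log (4 * |(k : ℝ)|) * (δ₁ + δ₂) ∧
        c ≤ |(k : ℝ)| * Real.log (4 * |(k : ℝ)|) * (Z.card : ℝ) ^ 13 * (δ₁ + δ₂)) ∧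
      (∀ F : Finset (Finset ℤ), (∀ Z ∈ F, IsCycle k Z ∧ (0 : ℤ) ∉ Z) →
        ∑ Z ∈ F, |form Z| ≤ C * |(k : ℝ)| ∧
        ∀ y : ℝ, 0 < y → (∀ Z ∈ F, ∀ z ∈ Basin k Z, y < |(z : ℝ)|) →
          ∑ Z ∈ F, ∑ x ∈ Z, 1 / max |(x : ℝ)| |(k : ℝ)| ≤ C * (|(k : ℝ)| / y) ^ e ∧
          ∑ Z ∈ F, |form Z| ≤ C * |(k : ℝ)| * (|(k : ℝ)| / y) ^ e)) ∧
    ∀ n : ℕ, 1 ≤ n → ∃ F : Finset (Finset ℤ), (∀ Z ∈ F, IsCycle (4 ^ n - 3 ^ n) Z ∧ (0 : ℤ) ∉ Z) ∧
      ((4 : ℝ) ^ n - 3 ^ n) / (16 * Real.sqrt n) ≤ ∑ Z ∈ F, |form Z| := by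
  obtain ⟨c0, hc0, hc⟩ := Pool.Agent.Q74.RC.tree_count
  have hTC : Pool.Agent.Q74.RC.TC c0 := ⟨hc0, hc⟩
  obtain ⟨c1, hc1, hlow⟩ := Pool.Agent.Q74.RC.form_lower
  obtain ⟨e, C1, he, he0, hC1, hcmp⟩ := Pool.Agent.Q74.RC.cmp_sum
  have hall := Pool.Agent.Q74.RC.all_cycles he0 hC1 hcmp
  have h2e : (0 : ℝ) < 2 ^ e := Real.rpow_pos_of_pos (by norm_num) _
  set C2 : ℝ := (8 * C1 + 2 * C1 + 16) * 2 ^ e with hC2
  have hC2p : 0 < C2 := by positivity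
  refine ⟨min (c0 / 4) (c1 * c0 / 2), 4 * C1 + C2 + 2 / c0, e, lt_min (by positivity) (by positivity), by positivity, he,
    fun k hk6 => ⟨?_, ?_, ?_, ?_⟩, fun n hn => Pool.Agent.Q74.RC.sharp n hn⟩
  all_goals
    have hk : k % 2 = 1 := by omega
    have hk3 : ¬ (3 : ℤ) ∣ k := by omega
    have hk1 := Pool.Agent.Q74.RC.k_pos hk
  · intro s hs a
    obtain ⟨δ, -, -, hδ⟩ := Pool.Agent.Q74.RC.cls_dens (Int.odd_iff.2 hk) (Pool.Agent.H499R2.ND.cop_of_not_dvd hk3) hs a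
    refine ⟨δ, hδ, fun A hA => ?_⟩
    have h1 := Pool.Agent.Q74.RC.traj_lower hTC hk hk3 hs a hA hδ
    have h2 := Pool.Agent.Q74.RC.sum_compare hk A
    have h3 : 0 ≤ ∑ x ∈ A, 1 / max |(x : ℝ)| |(k : ℝ)| := sum_nonneg fun x _ => by positivity
    calc min (c0 / 4) (c1 * c0 / 2) * ∑ x ∈ A, 1 / max |(x : ℝ)| |(k : ℝ)|
        ≤ c0 / 4 * ∑ x ∈ A, 1 / max |(x : ℝ)| |(k : ℝ)| := mul_le_mul_of_nonneg_right (min_le_left _ _) h3
      _ ≤ c0 / 4 * (4 * ∑ x ∈ A, 1 / max |((3 * x + k : ℤ) : ℝ)| |(k : ℝ)|) :=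
          mul_le_mul_of_nonneg_left h2 (by positivity)
      _ = c0 * ∑ x ∈ A, 1 / max |((3 * x + k : ℤ) : ℝ)| |(k : ℝ)| := by ring
      _ ≤ δ := h1
  · intro A ho hA
    obtain ⟨h1, h2⟩ := hcmp k hk hk3 A ho hA
    have h3 := Pool.Agent.Q74.RC.sum_compare hk A
    have h4 : 0 < 2 / c0 := by positivity
    refine ⟨by linarith, fun y hy hyz => ?_⟩
    have h5 := h2 y hy hyz
    have h6 : 0 ≤ (|(k : ℝ)| / y) ^ e := Real.rpow_nonneg (div_nonneg (abs_nonneg _) hy.le) _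
    calc ∑ x ∈ A, 1 / max |(x : ℝ)| |(k : ℝ)| ≤ 4 * (C1 * (|(k : ℝ)| / y) ^ e) := by linarith
      _ = (4 * C1) * (|(k : ℝ)| / y) ^ e := by ring
      _ ≤ _ := mul_le_mul_of_nonneg_right (by linarith) h6
  · intro Z hZ h0
    obtain ⟨x, hx⟩ := Pool.Agent.Q74.RC.cyc_nonempty hZ
    have hB : Basin k Z = Pool.Agent.Q74.RC.Cls k x := by
      ext z
      constructor
      · rintro ⟨j, hj⟩
        obtain ⟨i, hi⟩ := (Pool.Agent.Q74.RC.cyc_iff hZ hx _).1 hj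
        exact ⟨j, i, hi.symm⟩
      · exact Pool.Agent.Q74.RC.basin_cls hZ hx
    obtain ⟨δ₁, hδ1, -, h1⟩ := Pool.Agent.Q74.RC.cls_dens (Int.odd_iff.2 hk)
      (Pool.Agent.H499R2.ND.cop_of_not_dvd hk3) (s := 1) (Or.inl rfl) x
    obtain ⟨δ₂, hδ2, -, h2⟩ := Pool.Agent.Q74.RC.cls_dens (Int.odd_iff.2 hk)
      (Pool.Agent.H499R2.ND.cop_of_not_dvd hk3) (s := -1) (Or.inr rfl) x
    rw [← hB] at h1 h2
    have h3 := Pool.Agent.Q74.RC.form_dens hTC hk hk3 hZ h0 h1 h2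
    have hlog : 0 ≤ Real.log (4 * |(k : ℝ)|) := Real.log_nonneg (by linarith)
    have hq : 0 ≤ |(k : ℝ)| * Real.log (4 * |(k : ℝ)|) * (δ₁ + δ₂) := by positivity
    refine ⟨δ₁, δ₂, h1, h2, ?_, ?_⟩
    · calc |form Z| ≤ 2 / c0 * |(k : ℝ)| * Real.log (4 * |(k : ℝ)|) * (δ₁ + δ₂) := h3
        _ = 2 / c0 * (|(k : ℝ)| * Real.log (4 * |(k : ℝ)|) * (δ₁ + δ₂)) := by ring
        _ ≤ (4 * C1 + C2 + 2 / c0) * (|(k : ℝ)| * Real.log (4 * |(k : ℝ)|) * (δ₁ + δ₂)) :=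
            mul_le_mul_of_nonneg_right (by linarith) hq
        _ = _ := by ring
    · have h4 := hlow Z ⟨x, hx⟩
      have h5 : c1 ≤ (Z.card : ℝ) ^ 13 * (2 / c0 * |(k : ℝ)| * Real.log (4 * |(k : ℝ)|) * (δ₁ + δ₂)) :=
        h4.trans (mul_le_mul_of_nonneg_left h3 (by positivity))
      calc min (c0 / 4) (c1 * c0 / 2) ≤ c1 * c0 / 2 := min_le_right _ _
        _ ≤ ((Z.card : ℝ) ^ 13 * (2 / c0 * |(k : ℝ)| * Real.log (4 * |(k : ℝ)|) * (δ₁ + δ₂))) * c0 / 2 := by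
            apply div_le_div_of_nonneg_right _ (by norm_num)
            exact mul_le_mul_of_nonneg_right h5 hc0.le
        _ = _ := by
            field_simp
  · intro F hF
    obtain ⟨h1, h2⟩ := hall k hk hk3 F hF
    have h4 : 0 < 2 / c0 := by positivity
    have h5 : C2 ≤ 4 * C1 + C2 + 2 / c0 := by linarith
    refine ⟨h1.trans (mul_le_mul_of_nonneg_right h5 (abs_nonneg _)), fun y hy hyz => ?_⟩
    obtain ⟨h6, h7⟩ := h2 y hy hyz
    have h8 : 0 ≤ (|(k : ℝ)| / y) ^ e := Real.rpow_nonneg (div_nonneg (abs_nonneg _) hy.le) _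
    refine ⟨h6.trans (mul_le_mul_of_nonneg_right h5 h8), h7.trans ?_⟩
    exact mul_le_mul_of_nonneg_right (mul_le_mul_of_nonneg_right h5 (abs_nonneg _)) h8

end Pool.Agent.Results.MP_7f88e4_nt.DensitiesAndReciprocals
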