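import Pool.Agent.Q74.AR.TdThm

set_option autoImplicit false

/-!
# The meeting of two trajectories of the `3x+k` maps: limit laws, uniformly in `k`

`T k x = x/2`, `(3x+k)/2` on the integers, `k` odd. If the trajectories of `n` and of `m` take the same value at time
`t`, then they end in the same cycle, or both of them diverge. For `m ≡ n` modulo `k` we find the limit law of the
time of the meeting for random `n`, uniformly in all odd `k` and in the interval of at least `K 2^t` integers to which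
`n` is restricted:

* for a random distance `k h`, `h < H`, the probability of a meeting up to time `t` is `(2/π) arccos √ρ + o(1)`
  with `ρ = 2 log H / (t log (4/3))`, for all `H` at once (arcsine law);
* for the pair `n`, `3^a n + k b` with fixed `(a, b) ≠ (0, 0)` the probability that they have not met is
  `((2/√π) c(a, b) + o(1)) / √t`, with an explicit constant `c(a, b) > 0` which does not depend on `k`, and given that
  they have not met the level `|a + odds (3^a n + k b) - odds n|` divided by `√t` has the Rayleigh law;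
* so for all odd `k` and all sets `S` invariant under `T k` (the basin of a cycle, the orbits that are not
  eventually periodic) the proportion of the pairs separated by `S` is bounded by the arcsine law, and that of the
  `n` such that `S` separates `n` and `3^a n + k b` is at most `((2/√π) c(a, b) + o(1)) / √(log₂ L)` in every
  interval of `L` integers: uniformly in `k`, `S` and the interval.
-/

namespace Pool.Agent.Results.MP_7f88e4_nt.MeetingLaws

/-- the map `3x+k` -/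
def T (k x : ℤ) : ℤ := if x % 2 = 0 then x / 2 else (3 * x + k) / 2

/-- the number of odd terms among the first `t` terms of the trajectory of `x` under `3x+k` -/
def odds (k : ℤ) (t : ℕ) (x : ℤ) : ℕ := ((Finset.range t).filter (fun i => (T k)^[i] x % 2 = 1)).card

/-- for the map `3x+1`: the number of `n < 2^j` such that the pair of `n` and `3^a n + b` is at level `0` and has
different parities at time `j` -/
def N (a : ℕ) (b : ℤ) (j : ℕ) : ℕ :=
  ((Finset.range (2 ^ j)).filter (fun n : ℕ => odds 1 j (n : ℤ) = a + odds 1 j (3 ^ a * (n : ℤ) + b) ∧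
    ((T 1)^[j] (n : ℤ) + (T 1)^[j] (3 ^ a * (n : ℤ) + b)) % 2 = 1)).card

/-- the constant `a + ∑ N_j / 2^j` -/
noncomputable def c (a : ℕ) (b : ℤ) : ℝ := a + ∑' j, (N a b j : ℝ) / 2 ^ j

/-- the number of `n` in `[M, M + L)` such that `n` and `3^a n + k b` have not met at time `t` under `3x+k`
and their level at time `t` is at least `x √t` -/
noncomputable def apart (k : ℤ) (t a : ℕ) (b : ℤ) (x : ℝ) (M : ℤ) (L : ℕ) : ℕ :=
  {n : ℤ | M ≤ n ∧ n < M + L ∧ (T k)^[t] n ≠ (T k)^[t] (3 ^ a * n + k * b) ∧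
    x * √(t : ℝ) ≤ |(a : ℝ) + odds k t (3 ^ a * n + k * b) - odds k t n|}.ncard

/-- (1) Arcsine law: for every `ε > 0` there are `t₀` and `K` such that for all `t ≥ t₀`, `H ≥ 1`, `L ≥ K 2^t`, all
odd `k` and all `M` the proportion of the pairs `(n, h)` with `M ≤ n < M + L`, `0 ≤ h < H` for which
`T_k^t n = T_k^t (n + k h)` is `(2/π) arccos (min 1 √(2 log H / (t log (4/3))))` up to `ε`.
(2) The series of `c a b` converges, and `c a b > 0` for `(a, b) ≠ (0, 0)`.
(3) `√t apart / L → (2/√π) exp (-x²) c a b` for all `x ≥ 0`, uniformly in the odd numbers `k` and the intervals of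
`L ≥ t 2^t` integers; for `x = 0` the condition on the level is void.
(4) Hence given that the pair has not met `level / √t` has the Rayleigh limit law.
(5) For all odd `k` and all sets `S` invariant under `T k`: the proportion of the pairs `(n, h)` with
`M ≤ n < M + L`, `0 ≤ h < H ≤ L^θ` such that exactly one of `n`, `n + k h` is in `S` is at most
`(2/π) arcsin (min 1 √(2 log 2 θ / log (4/3))) + ε` for `L ≥ L₀ (ε)`.
(6) For all odd `k` and all sets `S` invariant under `T k` at most `((2/√π) c a b + ε) L / √(log₂ L)` of the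
integers `n` of an interval of `L ≥ L₀ (a, b, ε)` integers are such that exactly one of `n`, `3^a n + k b` is
in `S`. -/
theorem result :
    (∀ ε : ℝ, 0 < ε → ∃ t₀ K : ℕ, ∀ t H L : ℕ, t₀ ≤ t → 1 ≤ H → K * 2 ^ t ≤ L → ∀ k : ℤ, k % 2 = 1 → ∀ M : ℤ,
      |(∑ h ∈ Finset.range H, ({n : ℤ | M ≤ n ∧ n < M + L ∧ (T k)^[t] n = (T k)^[t] (n + k * h)}.ncard : ℝ)) /
        (L * H) - 2 / Real.pi * Real.arccos (min 1 (√(2 * Real.log H / (t * Real.log (4 / 3)))))| ≤ ε) ∧
    (∀ (a : ℕ) (b : ℤ), Summable (fun j => (N a b j : ℝ) / 2 ^ j) ∧ ((a, b) ≠ (0, 0) → 0 < c a b)) ∧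
    (∀ (a : ℕ) (b : ℤ) (x ε : ℝ), 0 ≤ x → 0 < ε → ∃ t₀ : ℕ, ∀ t L : ℕ, t₀ ≤ t → t * 2 ^ t ≤ L →
      ∀ k : ℤ, k % 2 = 1 → ∀ M : ℤ,
      |√(t : ℝ) * apart k t a b x M L / L - 2 / √Real.pi * Real.exp (-x ^ 2) * c a b| ≤ ε) ∧
    (∀ (a : ℕ) (b : ℤ) (x ε : ℝ), (a, b) ≠ (0, 0) → 0 ≤ x → 0 < ε → ∃ t₀ : ℕ, ∀ t L : ℕ, t₀ ≤ t →
      t * 2 ^ t ≤ L → ∀ k : ℤ, k % 2 = 1 → ∀ M : ℤ,
      |(apart k t a b x M L : ℝ) / apart k t a b 0 M L - Real.exp (-x ^ 2)| ≤ ε) ∧
    (∀ ε : ℝ, 0 < ε → ∃ L₀ : ℕ, ∀ k : ℤ, k % 2 = 1 → ∀ S : Set ℤ, (∀ x, T k x ∈ S ↔ x ∈ S) →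
      ∀ (θ : ℝ) (H L : ℕ), L₀ ≤ L → 1 ≤ H → 0 ≤ θ → (H : ℝ) ≤ (L : ℝ) ^ θ → ∀ M : ℤ,
      (∑ h ∈ Finset.range H, ({n : ℤ | M ≤ n ∧ n < M + L ∧ ¬ (n ∈ S ↔ n + k * h ∈ S)}.ncard : ℝ)) / (L * H) ≤
        2 / Real.pi * Real.arcsin (min 1 (√(2 * Real.log 2 * θ / Real.log (4 / 3)))) + ε) ∧
    (∀ (a : ℕ) (b : ℤ) (ε : ℝ), 0 < ε → ∃ L₀ : ℕ, ∀ k : ℤ, k % 2 = 1 → ∀ S : Set ℤ, (∀ x, T k x ∈ S ↔ x ∈ S) →
      ∀ L : ℕ, L₀ ≤ L → ∀ M : ℤ,
        √(Real.log L / Real.log 2) * {n : ℤ | M ≤ n ∧ n < M + L ∧ ¬ (n ∈ S ↔ 3 ^ a * n + k * b ∈ S)}.ncard / L ≤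
          2 / √Real.pi * c a b + ε) := by
  have ho : ∀ (t : ℕ) (x : ℤ), odds 1 t x = Pool.Agent.Q74.AR.oc t x := fun t x =>
    (Pool.Agent.Q74.AR.oc_eq t x).symm
  have hN : ∀ (a : ℕ) (b : ℤ) (j : ℕ), (N a b j : ℝ) / 2 ^ j =
      (Pool.Agent.Q158.Pair.av)^[j] Pool.Agent.Q158.Pair.zo (a, b) := by
    intro a b j
    rw [Pool.Agent.Q74.AR.zo_term]
    unfold N
    simp only [ho]
    rfl
  have hc : ∀ (a : ℕ) (b : ℤ), c a b = Pool.Agent.Q74.AR.cz (a, b) := by
    intro a b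
    unfold c Pool.Agent.Q74.AR.cz
    simp only [hN]
  have harc : ∀ x : ℝ, Real.arcsin (min 1 x) = Real.arcsin x := by
    intro x
    rcases le_total 1 x with h | h
    · rw [min_eq_left h, Real.arcsin_one, Real.arcsin_of_one_le h]
    · rw [min_eq_right h]
  refine ⟨fun ε hε => ?_, fun a b => ⟨?_, fun h => ?_⟩, fun a b x ε hx hε => ?_, fun a b x ε h hx hε => ?_,
    fun ε hε => ?_, fun a b ε hε => ?_⟩
  · obtain ⟨t₀, K, h⟩ := Pool.Agent.Q74.AR.arcsine_d hε
    refine ⟨t₀, K, fun t H L ht hH hL k hk M => ?_⟩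
    have h1 := h t H L ht hH hL k hk M
    have e : Real.arccos (min 1 (√(2 * Real.log H / (t * Real.log (4 / 3))))) =
        Real.arccos (√(2 * Real.log H / (t * Real.log (4 / 3)))) := by
      rw [Real.arccos, Real.arccos, harc]
    rw [e]
    exact h1
  · have h := Pool.Agent.Q74.AR.zo_summable (a, b)
    refine h.congr fun j => ?_
    exact (hN a b j).symm
  · rw [hc]
    exact Pool.Agent.Q74.AR.cz_pos h
  · obtain ⟨t₀, _, h⟩ := Pool.Agent.Q74.AR.yag_count_d a b hx hε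
    refine ⟨t₀, fun t L ht hL k hk M => ?_⟩
    rw [hc]
    exact h t L ht hL k hk M
  · obtain ⟨t₀, _, h⟩ := Pool.Agent.Q74.AR.ray_count_d a b h hx hε
    exact ⟨t₀, fun t L ht hL k hk M => h t L ht hL k hk M⟩
  · obtain ⟨L₀, h⟩ := Pool.Agent.Q74.AR.separated_d hε
    refine ⟨max L₀ 1, fun k hk S hS θ H L hL hH hθ hHL M => ?_⟩
    have h1 := h k hk S hS θ H L (le_trans (le_max_left _ _) hL) hH hθ hHL M
    have hLr : (0 : ℝ) < L := by exact_mod_cast lt_of_lt_of_le one_pos (le_trans (le_max_right _ _) hL)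
    have hHr : (0 : ℝ) < H := by exact_mod_cast hH
    rw [harc, div_le_iff₀ (by positivity)]
    have e : 2 * Real.log 2 * θ / Real.log (4 / 3) = 2 * Real.log 2 / Real.log (4 / 3) * θ := by ring
    rw [e]
    exact h1
  · obtain ⟨L₀, h⟩ := Pool.Agent.Q74.AR.inv_count_d a b hε
    refine ⟨L₀, fun k hk S hS L hL M => ?_⟩
    rw [hc]
    exact h k hk S hS L hL M

end Pool.Agent.Results.MP_7f88e4_nt.MeetingLaws
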