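import Pool.Agent.Q64.CY.Dyn

/-!
# The short cycles of the `3x+k` maps, for all large `k`

A cycle of the `3x+k` map all of whose elements have the greatest common divisor `g` with `k` is `g`
times a cycle of the `3x+k/g` map whose elements are prime to `k/g`. Hence the cycles prime to `k`
(the primitive cycles) are the ones that matter. For every `K` and all `k` with `|k| ≥ k₀(K)` it is
shown that the primitive cycles of length at most `K log |k|` are very similar to each other: there are
`a ≥ log |k| / log 3` and `b` such that each of them has length `j a` and contains `j b` odd numbers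
for some `j`. So all of them have the same proportion of odd elements, and at most `K log 3` lengths
occur. (By Lagarias there are infinitely many `k` with at least `|k| ^ (1 - ε)` primitive cycles of
length at most `log |k|`.) More generally this holds for all returns `T^n x ≡ x` modulo `k`, and there
is a version for integers `x`, `y` which are not prime to `k`.

Proof. A return of `x` after `n` steps with `m` odd numbers gives `2 ^ n ≡ 3 ^ m` modulo
`k / gcd (x, k)`. By the theorem of Bugeaud, Corvaja and Zannier on greatest common divisors, which is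
derived here for `2 ^ n - 3 ^ m` from the subspace theorem of the starting library
(`Pool.Agent.TH461.SST`), two such numbers `2 ^ n - 3 ^ m`, `2 ^ n' - 3 ^ m'` with `n m' ≠ n' m` have no
large common divisor.
-/

set_option autoImplicit false

open Finset

namespace Pool.Agent.Results.MP_7f88e4_nt.ShortCycles

/-- The `3x+k` map on the integers. -/
def T (k x : ℤ) : ℤ := if x % 2 = 0 then x / 2 else (3 * x + k) / 2

/-- The number of odd integers among `x, T x, …, T^(n-1) x`. -/
def odds (k : ℤ) (n : ℕ) (x : ℤ) : ℕ := ((range n).filter fun i => ((T k)^[i] x) % 2 ≠ 0).card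

/-- (1) For every `K > 0` there is `k₀` such that for all `k ≡ 1, 5` modulo `6` with `|k| ≥ k₀` there
are natural numbers `a ≥ log |k| / log 3` and `b ≤ a` such that for every integer `x` prime to `k` and
every `n ≤ K log |k|` with `T^n x = x`, or only `T^n x ≡ x` modulo `k`, there is `j` with `n = j a`, and
exactly `j b` of the integers `x, T x, …, T^(n-1) x` are odd.
(2) For all `K, ε > 0` there is `k₀` such that for all `k ≡ 1, 5` modulo `6` with `|k| ≥ k₀`: if `x`, `y`
are integers with `gcd (x, k) gcd (y, k) ≤ |k| ^ (1 - ε)` and `T^n x ≡ x`, `T^n' y ≡ y` modulo `k`, where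
`n, n' ≤ K log |k|`, then the proportions of the odd numbers among `x, T x, …, T^(n-1) x` and among
`y, T y, …, T^(n'-1) y` are equal. -/
theorem result :
    (∀ K : ℝ, 0 < K → ∃ k₀ : ℝ, ∀ k : ℤ, (k % 6 = 1 ∨ k % 6 = 5) → k₀ ≤ |(k : ℝ)| →
      ∃ a b : ℕ, Real.log |(k : ℝ)| / Real.log 3 ≤ a ∧ b ≤ a ∧
        ∀ (x : ℤ) (n : ℕ), IsCoprime x k → (n : ℝ) ≤ K * Real.log |(k : ℝ)| →
          ((T k)^[n] x = x ∨ (T k)^[n] x ≡ x [ZMOD k]) → ∃ j : ℕ, n = j * a ∧ odds k n x = j * b) ∧
    (∀ K ε : ℝ, 0 < K → 0 < ε → ∃ k₀ : ℝ, ∀ k : ℤ, (k % 6 = 1 ∨ k % 6 = 5) → k₀ ≤ |(k : ℝ)| →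
      ∀ (x y : ℤ) (n n' : ℕ), ((Int.gcd x k * Int.gcd y k : ℕ) : ℝ) ≤ |(k : ℝ)| ^ (1 - ε) →
        (n : ℝ) ≤ K * Real.log |(k : ℝ)| → (n' : ℝ) ≤ K * Real.log |(k : ℝ)| →
        (T k)^[n] x ≡ x [ZMOD k] → (T k)^[n'] y ≡ y [ZMOD k] →
        n * odds k n' y = n' * odds k n x) := by
  constructor
  · intro K hK
    obtain ⟨k₀, h⟩ := Q64.CY.primitive_returns K hK
    refine ⟨k₀, fun k hk hk₀ => ?_⟩
    obtain ⟨a, b, h1, h2, h3⟩ := h k (by omega) (by omega) hk₀
    refine ⟨a, b, ?_, h2, fun x n hx hn hret => h3 x n hx hn ?_⟩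
    · rw [div_le_iff₀ (Real.log_pos (by norm_num))]
      exact h1
    · rcases hret with hret | hret
      · change (T k)^[n] x ≡ x [ZMOD k]
        rw [hret]
      · exact hret
  · intro K ε hK hε
    obtain ⟨k₀, h⟩ := Q64.CY.two_returns K ε hK hε
    exact ⟨k₀, fun k hk hk₀ x y n n' hg hn hn' hx hy =>
      h k (by omega) (by omega) hk₀ x y n n' hn hn' hx hy hg⟩

end Pool.Agent.Results.MP_7f88e4_nt.ShortCycles
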